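import Pool.Agent.H29.LG.Targets
import Pool.Agent.H96.SX.DTL

/-!
# Row DTLM: a determinant whose last rows are small on the kernel of the first rows, one factor for
every row (the proof is the one of `Pool.Agent.H96.SX.pf_DTL`)
-/

set_option autoImplicit false

open Finset Pool.Agent.H29.SX Pool.Agent.H29.LG

namespace Pool.Agent.H75.LG

open Pool.Agent.H96.SX (na_sum na_det)

section
variable {M : Type} [Field M] {v : AbsoluteValue M ℝ}

/-- The statement with rows and columns in `Fin n`. -/
lemma det_small (hv : IsNonarchimedean v) : ∀ (n a : ℕ), a ≤ n →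
    ∀ (D : Matrix (Fin n) (Fin n) M) (ϖ b : Fin n → ℝ), (∀ i, 0 ≤ ϖ i) →
    (∀ i : Fin n, (i : ℕ) < a → ϖ i = 1) → (∀ i j, v (D i j) ≤ b i) →
    (∀ i, 0 ≤ b i) →
    (∀ x : Fin n → M, (∀ j, v (x j) ≤ 1) → (∀ i : Fin n, (i : ℕ) < a → ∑ j, x j * D i j = 0) →
      ∀ i : Fin n, a ≤ (i : ℕ) → v (∑ j, x j * D i j) ≤ ϖ i * b i) →
    v D.det ≤ (∏ i, ϖ i) * ∏ i, b i := by
  intro n
  induction n with
  | zero =>
    intro a ha D ϖ b _ _ _ _ _
    simp
  | succ n ih =>
    intro a ha D ϖ b hϖ hϖ1 h1 h2 h3
    rcases a with _ | a
    · -- no first rows
      have h4 : ∀ i j, v (D i j) ≤ ϖ i * b i := by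
        intro i j
        have h5 := h3 (fun l => if l = j then 1 else 0) (fun l => by split_ifs <;> simp)
          (fun i hi => absurd hi (Nat.not_lt_zero _)) i (Nat.zero_le _)
        simpa using h5
      have h6 := na_det hv D (fun i => ϖ i * b i) h4 (fun i => mul_nonneg (hϖ i) (h2 i))
      rwa [Finset.prod_mul_distrib] at h6
    · -- expansion along the first row
      obtain ⟨j0, hj0⟩ := Finite.exists_max (fun j => v (D 0 j))
      by_cases hz : D 0 j0 = 0
      · have hrow : ∀ j, D 0 j = 0 := by
          intro j
          have h4 := hj0 j
          simp only [hz, map_zero] at h4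
          exact (v.eq_zero).1 (le_antisymm h4 (v.nonneg _))
        rw [Matrix.det_eq_zero_of_row_eq_zero 0 hrow, map_zero]
        exact mul_nonneg (Finset.prod_nonneg fun i _ => hϖ i) (Finset.prod_nonneg fun i _ => h2 i)
      · have hpos : 0 < v (D 0 j0) := v.pos hz
        set c : Fin (n + 1) → M := fun j => if j = j0 then 0 else - (D 0 j / D 0 j0) with hc
        have hc1 : ∀ j, v (c j) ≤ 1 := by
          intro j
          rw [hc]
          simp only
          split_ifs
          · simp
          · rw [v.map_neg, map_div₀, div_le_one hpos]
            exact hj0 j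
        set D' : Matrix (Fin (n + 1)) (Fin (n + 1)) M := fun i j => D i j + c j * D i j0 with hD'
        have hdet : D'.det = D.det := by
          rw [← Matrix.det_transpose D', ← Matrix.det_transpose D]
          exact Matrix.det_eq_of_forall_row_eq_smul_add_const c j0 (by simp [hc])
            (fun i j => rfl)
        have hD'0 : ∀ j, j ≠ j0 → D' 0 j = 0 := by
          intro j hj
          rw [hD', hc]
          simp only [if_neg hj]
          field_simp
          ring
        have hD'j0 : D' 0 j0 = D 0 j0 := by
          rw [hD', hc]
          simp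
        have hD'b : ∀ i j, v (D' i j) ≤ b i := by
          intro i j
          refine (hv _ _).trans (max_le (h1 i j) ?_)
          rw [map_mul]
          calc v (c j) * v (D i j0) ≤ 1 * b i :=
                mul_le_mul (hc1 j) (h1 i j0) (v.nonneg _) (by norm_num)
            _ = b i := one_mul _
        have hexp : D'.det = (-1) ^ (j0 : ℕ) * D 0 j0 *
            (D'.submatrix Fin.succ j0.succAbove).det := by
          rw [Matrix.det_succ_row_zero, Finset.sum_eq_single j0]
          · rw [hD'j0]
          · intro j _ hj
            rw [hD'0 j hj]
            ring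
          · intro h
            exact absurd (Finset.mem_univ _) h
        have hminor := ih a (by omega) (D'.submatrix Fin.succ j0.succAbove)
          (fun i => ϖ i.succ) (fun i => b i.succ) (fun i => hϖ _)
          (fun i hi => hϖ1 i.succ (by simpa using hi)) (fun i j => hD'b _ _) (fun i => h2 _) (by
            intro x hx hx0 i hi
            -- the extended vector
            set y0 : M := ∑ j, x j * c (j0.succAbove j) with hy0
            set y : Fin (n + 1) → M := Fin.insertNth j0 y0 x with hy
            have hy1 : y j0 = y0 := by rw [hy, Fin.insertNth_apply_same]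
            have hy2 : ∀ j, y (j0.succAbove j) = x j := by
              intro j
              rw [hy, Fin.insertNth_apply_succAbove]
            have hyv : ∀ j, v (y j) ≤ 1 := by
              intro j
              rcases Fin.eq_self_or_eq_succAbove j0 j with h | ⟨l, h⟩
              · rw [h, hy1, hy0]
                apply na_sum hv _ _ (by norm_num)
                intro l _
                rw [map_mul]
                calc v (x l) * v (c (j0.succAbove l)) ≤ 1 * 1 :=
                      mul_le_mul (hx l) (hc1 _) (v.nonneg _) (by norm_num)
                  _ = 1 := one_mul _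
              · rw [h, hy2]
                exact hx l
            have hsum : ∀ i, ∑ l, y l * D i l = ∑ j, x j * D' i (j0.succAbove j) := by
              intro i
              rw [Fin.sum_univ_succAbove _ j0, hy1, hy0, Finset.sum_mul,
                ← Finset.sum_add_distrib]
              apply Finset.sum_congr rfl
              intro j _
              rw [hy2, hD']
              ring
            have hker : ∀ i : Fin (n + 1), (i : ℕ) < a + 1 → ∑ l, y l * D i l = 0 := by
              intro i hi
              rw [hsum]
              rcases Fin.eq_zero_or_eq_succ i with h | ⟨i', h⟩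
              · subst h
                apply Finset.sum_eq_zero
                intro j _
                rw [hD'0 _ (Fin.succAbove_ne j0 j), mul_zero]
              · subst h
                exact hx0 i' (by simpa using hi)
            have h7 := h3 y hyv hker i.succ (by simpa using hi)
            rw [hsum] at h7
            exact h7)
        rw [← hdet, hexp, map_mul, map_mul, map_pow, v.map_neg, map_one, one_pow, one_mul,
          Fin.prod_univ_succ, Fin.prod_univ_succ, hϖ1 0 (Nat.succ_pos a)]
        calc v (D 0 j0) * v (D'.submatrix Fin.succ j0.succAbove).det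
            ≤ b 0 * ((∏ i : Fin n, ϖ i.succ) * ∏ i : Fin n, b i.succ) :=
              mul_le_mul (h1 0 j0) hminor (v.nonneg _) (h2 0)
          _ = (1 * ∏ i : Fin n, ϖ i.succ) * (b 0 * ∏ i : Fin n, b i.succ) := by ring

end

theorem pf_DTLM : T_DTLM := by
  intro M _ v hv a ν D ϖ b hϖ h1 h2 h3
  have key := det_small hv (a + ν) a (Nat.le_add_right a ν)
    (D.submatrix finSumFinEquiv.symm finSumFinEquiv.symm)
    (fun i => Sum.elim (fun _ => 1) ϖ (finSumFinEquiv.symm i))
    (fun i => b (finSumFinEquiv.symm i)) (fun i => by
      rcases finSumFinEquiv.symm i with i' | i'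
      · simp
      · simpa using (hϖ i').1) (fun i hi => by
      rcases hi' : finSumFinEquiv.symm i with i' | i'
      · simp
      · exfalso
        have h6 : i = finSumFinEquiv (Sum.inr i') := by
          rw [← hi']; simp
        rw [h6] at hi
        simp at hi)
    (fun i j => h1 _ _) (fun i => h2 _) (by
      intro x hx hx0 i hi
      have hs : ∀ i' : Fin a ⊕ Fin ν, ∑ j, x (finSumFinEquiv j) * D i' j =
          ∑ j : Fin (a + ν), x j * D i' (finSumFinEquiv.symm j) := by
        intro i'
        rw [← Equiv.sum_comp (finSumFinEquiv : Fin a ⊕ Fin ν ≃ Fin (a + ν))]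
        simp
      have h4 := h3 (fun j => x (finSumFinEquiv j)) (fun j => hx _) (by
        intro i'
        rw [hs]
        have h5 := hx0 (finSumFinEquiv (Sum.inl i')) (by simp)
        simpa using h5)
      rcases hi' : finSumFinEquiv.symm i with i' | i'
      · exfalso
        have h6 : i = finSumFinEquiv (Sum.inl i') := by
          rw [← hi']; simp
        rw [h6] at hi
        simp only [finSumFinEquiv_apply_left, Fin.val_castAdd] at hi
        omega
      · have h7 := h4 i'
        rw [hs] at h7
        simpa [hi'] using h7)
  rw [Matrix.det_submatrix_equiv_self] at key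
  have h8 : ∏ i : Fin (a + ν), b (finSumFinEquiv.symm i) = ∏ i, b i :=
    Equiv.prod_comp (finSumFinEquiv.symm : Fin (a + ν) ≃ Fin a ⊕ Fin ν) b
  have h9 : ∏ i : Fin (a + ν), Sum.elim (fun _ => (1 : ℝ)) ϖ (finSumFinEquiv.symm i) =
      ∏ i, Sum.elim (fun _ : Fin a => (1 : ℝ)) ϖ i :=
    Equiv.prod_comp (finSumFinEquiv.symm : Fin (a + ν) ≃ Fin a ⊕ Fin ν) _
  rw [h8, h9, Fintype.prod_sum_type] at key
  simpa using key

end Pool.Agent.H75.LG
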