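import Pool.Agent.H29.LG.Targets

/-! Row NRMK of board lgx (MP_c65535_nt): the norm of a translate (the proof is the one of
`Pool.Agent.H71.SX.pf_NRM`). -/

set_option autoImplicit false

namespace Pool.Agent.H75.LG

open NumberField Height Finset Polynomial Pool.Agent.H24.RD Pool.Agent.H23.RDD Pool.Agent.H29.RQ
  Pool.Agent.H29.SX Pool.Agent.H29.LG

lemma nrm_bd {r : ℕ} {lam H : ℝ} {ξ : Fin r → ℝ} (hl : 0 < lam) (hH0 : 0 < H)
    (hξ : ∀ i, 0 ≤ ξ i ∧ ξ i ≤ 1) {ρ : ℝ} (hρ : 0 ≤ ρ) (a : Fin (r + 1) → ℤ)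
    (ha : nrm r lam H ξ a ≤ ρ) : |(a 0 : ℝ)| ≤ ρ / lam ∧
    (∀ i, |(a i.succ : ℝ) - a 0 * ξ i| ≤ ρ / H) ∧ ∀ l, |(a l : ℝ)| ≤ ρ / H + ρ / lam := by
  unfold nrm at ha
  have hs : 0 ≤ ∑ i, |(a i.succ : ℝ) - a 0 * ξ i| := sum_nonneg fun i _ => abs_nonneg _
  have h1 : |(a 0 : ℝ)| ≤ ρ / lam := by
    rw [le_div_iff₀ hl]
    have : 0 ≤ H * ∑ i, |(a i.succ : ℝ) - a 0 * ξ i| := by positivity
    linarith
  have h2 : ∀ i, |(a i.succ : ℝ) - a 0 * ξ i| ≤ ρ / H := by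
    intro i
    rw [le_div_iff₀ hH0]
    have h3 : |(a i.succ : ℝ) - a 0 * ξ i| ≤ ∑ i, |(a i.succ : ℝ) - a 0 * ξ i| :=
      single_le_sum (f := fun i => |(a i.succ : ℝ) - a 0 * ξ i|) (fun j _ => abs_nonneg _)
        (mem_univ i)
    have h4 : H * |(a i.succ : ℝ) - a 0 * ξ i| ≤ H * ∑ i, |(a i.succ : ℝ) - a 0 * ξ i| :=
      mul_le_mul_of_nonneg_left h3 hH0.le
    have h5 : 0 ≤ |(a 0 : ℝ)| * lam := by positivity
    linarith
  refine ⟨h1, h2, ?_⟩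
  have h6 : 0 ≤ ρ / H := by positivity
  have h7 : 0 ≤ ρ / lam := by positivity
  intro l
  refine Fin.cases ?_ (fun i => ?_) l
  · linarith
  · have h8 : |(a 0 : ℝ) * ξ i| ≤ ρ / lam := by
      rw [abs_mul, abs_of_nonneg (hξ i).1]
      calc |(a 0 : ℝ)| * ξ i ≤ |(a 0 : ℝ)| * 1 :=
            mul_le_mul_of_nonneg_left (hξ i).2 (abs_nonneg _)
        _ ≤ ρ / lam := by rw [mul_one]; exact h1
    have h9 : |(a i.succ : ℝ)| ≤ |(a i.succ : ℝ) - a 0 * ξ i| + |(a 0 : ℝ) * ξ i| := by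
      have := abs_add_le ((a i.succ : ℝ) - a 0 * ξ i) ((a 0 : ℝ) * ξ i)
      simpa using this
    linarith [h2 i]

theorem pf_NRMK : T_NRMK := by
  intro r lam H ξ hl hH hξ
  refine ⟨⟨?_, ?_, ?_, ?_⟩, ?_⟩
  · intro a
    unfold nrm
    have h1 : |(((-a) 0 : ℤ) : ℝ)| = |(a 0 : ℝ)| := by
      rw [Pi.neg_apply, Int.cast_neg, abs_neg]
    have h2 : ∀ i : Fin r, |(((-a) i.succ : ℤ) : ℝ) - ((-a) 0 : ℤ) * ξ i| =
        |(a i.succ : ℝ) - a 0 * ξ i| := by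
      intro i
      rw [Pi.neg_apply, Pi.neg_apply, Int.cast_neg, Int.cast_neg, ← abs_neg]
      congr 1
      ring
    rw [h1, sum_congr rfl fun i _ => h2 i]
  · intro a b
    unfold nrm
    have h1 : |(((a + b) 0 : ℤ) : ℝ)| ≤ |(a 0 : ℝ)| + |(b 0 : ℝ)| := by
      rw [Pi.add_apply, Int.cast_add]; exact abs_add_le _ _
    have h2 : ∀ i : Fin r, |(((a + b) i.succ : ℤ) : ℝ) - ((a + b) 0 : ℤ) * ξ i| ≤
        |(a i.succ : ℝ) - a 0 * ξ i| + |(b i.succ : ℝ) - b 0 * ξ i| := by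
      intro i
      have : (((a + b) i.succ : ℤ) : ℝ) - ((a + b) 0 : ℤ) * ξ i =
          ((a i.succ : ℝ) - a 0 * ξ i) + ((b i.succ : ℝ) - b 0 * ξ i) := by
        rw [Pi.add_apply, Pi.add_apply, Int.cast_add, Int.cast_add]; ring
      rw [this]; exact abs_add_le _ _
    have h3 := sum_le_sum fun i (_ : i ∈ univ) => h2 i
    rw [sum_add_distrib] at h3
    have h4 := mul_le_mul_of_nonneg_right h1 hl.le
    have h5 := mul_le_mul_of_nonneg_left h3 hH.le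
    linarith
  · intro q a
    unfold nrm
    have h1 : |(((q • a) 0 : ℤ) : ℝ)| = q * |(a 0 : ℝ)| := by
      rw [Pi.smul_apply, nsmul_eq_mul, Int.cast_mul, abs_mul]
      simp
    have h2 : ∀ i : Fin r, |(((q • a) i.succ : ℤ) : ℝ) - ((q • a) 0 : ℤ) * ξ i| =
        q * |(a i.succ : ℝ) - a 0 * ξ i| := by
      intro i
      have : (((q • a) i.succ : ℤ) : ℝ) - ((q • a) 0 : ℤ) * ξ i =
          (q : ℝ) * ((a i.succ : ℝ) - a 0 * ξ i) := by
        rw [Pi.smul_apply, Pi.smul_apply, nsmul_eq_mul, nsmul_eq_mul]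
        push_cast
        ring
      rw [this, abs_mul, abs_of_nonneg (Nat.cast_nonneg q)]
    rw [h1, sum_congr rfl fun i _ => h2 i, ← mul_sum]
    ring
  · intro ρ
    rcases lt_or_ge ρ 0 with hρ | hρ
    · have : {a : Fin (r + 1) → ℤ | nrm r lam H ξ a ≤ ρ} = ∅ := by
        ext a
        simp only [Set.mem_ofPred_eq, Set.mem_empty_iff_false, iff_false, not_le]
        have : 0 ≤ nrm r lam H ξ a := by unfold nrm; positivity
        linarith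
      rw [this]; exact Set.finite_empty
    · set Z : ℝ := ρ / H + ρ / lam with hZ
      apply Set.Finite.subset (Set.Finite.pi' (fun _ : Fin (r + 1) => Set.finite_Icc (-⌈Z⌉) ⌈Z⌉))
      intro a ha l
      have h1 := (nrm_bd hl hH hξ hρ a ha).2.2 l
      have h2 : (a l : ℝ) ≤ ⌈Z⌉ := ((le_abs_self _).trans h1).trans (Int.le_ceil _)
      have h3 : -(⌈Z⌉ : ℝ) ≤ a l := by
        have := (neg_abs_le (a l : ℝ))
        have h4 := Int.le_ceil Z
        linarith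
      constructor
      · have h5 : ((-⌈Z⌉ : ℤ) : ℝ) ≤ a l := by push_cast; exact h3
        exact_mod_cast h5
      · exact_mod_cast h2
  · intro ρ hρ
    refine ⟨fun a ha => nrm_bd hl hH hξ hρ a ha, ?_⟩
    intro R nn hinj hnn
    set Z : ℝ := ρ / H + ρ / lam with hZ
    have hZ0 : 0 ≤ Z := by positivity
    have h1 : ∀ j, nn j ∈ Fintype.piFinset (fun _ : Fin (r + 1) => Finset.Icc (-⌊Z⌋) ⌊Z⌋) := by
      intro j
      rw [Fintype.mem_piFinset]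
      intro l
      have h2 := (nrm_bd hl hH hξ hρ (nn j) (hnn j)).2.2 l
      have h3 := abs_le.1 h2
      rw [Finset.mem_Icc]
      constructor
      · have h4 : ((-nn j l : ℤ) : ℝ) ≤ Z := by push_cast; linarith [h3.1]
        have h5 := Int.le_floor.2 h4
        linarith
      · exact Int.le_floor.2 h3.2
    have h6 : R ≤ (Fintype.piFinset (fun _ : Fin (r + 1) => Finset.Icc (-⌊Z⌋) ⌊Z⌋)).card := by
      have h7 : (Finset.univ.image nn).card = R := by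
        rw [card_image_of_injective _ hinj, card_univ, Fintype.card_fin]
      rw [← h7]
      apply card_le_card
      intro a ha
      rw [Finset.mem_image] at ha
      obtain ⟨j, -, rfl⟩ := ha
      exact h1 j
    rw [Fintype.card_piFinset, prod_const, card_univ, Fintype.card_fin, Int.card_Icc] at h6
    have hfl : 0 ≤ ⌊Z⌋ := Int.floor_nonneg.2 hZ0
    have h8 : (((⌊Z⌋ + 1 - -⌊Z⌋).toNat : ℕ) : ℝ) ≤ 2 * Z + 1 := by
      have h9 : (((⌊Z⌋ + 1 - -⌊Z⌋).toNat : ℕ) : ℤ) = 2 * ⌊Z⌋ + 1 := by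
        rw [Int.toNat_of_nonneg (by linarith)]; ring
      have h10 : (((⌊Z⌋ + 1 - -⌊Z⌋).toNat : ℕ) : ℝ) = 2 * (⌊Z⌋ : ℝ) + 1 := by
        have : ((((⌊Z⌋ + 1 - -⌊Z⌋).toNat : ℕ) : ℤ) : ℝ) = ((2 * ⌊Z⌋ + 1 : ℤ) : ℝ) := by rw [h9]
        push_cast at this
        simpa using this
      rw [h10]
      have := Int.floor_le Z
      linarith
    calc (R : ℝ) ≤ (((⌊Z⌋ + 1 - -⌊Z⌋).toNat ^ (r + 1) : ℕ) : ℝ) := by exact_mod_cast h6
      _ = (((⌊Z⌋ + 1 - -⌊Z⌋).toNat : ℕ) : ℝ) ^ (r + 1) := by push_cast; rfl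
      _ ≤ (2 * Z + 1) ^ (r + 1) := pow_le_pow_left₀ (by positivity) h8 _

end Pool.Agent.H75.LG
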